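import Mathlib

set_option autoImplicit false

namespace Pool.Agent.H.MP_eac85a_an
open Finset Module

variable {n : ℕ} {ι : Type} [Fintype ι] [DecidableEq ι] {f : ι → (Fin n → ℝ) →ₗ[ℝ] ℝ}

lemma ex {κ : Type} [Fintype κ] (g : κ → (Fin n → ℝ) →ₗ[ℝ] ℝ) (h : Fintype.card κ < n) :
    ∃ u : Fin n → ℝ, (∃ i, u i ≠ 0) ∧ ∀ k, g k u = 0 := by
  obtain ⟨u, h1, h2⟩ := (Submodule.ne_bot_iff _).1 ((LinearMap.pi g).ker_ne_bot_of_finrank_lt (by simpa using h))
  exact ⟨u, Function.ne_iff.1 h2, fun k => congrFun h1 k⟩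

omit [Fintype ι] [DecidableEq ι] in
lemma ex' (f : ι → (Fin n → ℝ) →ₗ[ℝ] ℝ) (S : Finset ι) (h : S.card < n) :
    ∃ u : Fin n → ℝ, (∃ i, u i ≠ 0) ∧ ∀ k ∈ S, f k u = 0 := by
  obtain ⟨u, h1, h2⟩ := ex (fun k : S => f k) (by simpa using h)
  exact ⟨u, h1, fun k hk => h2 ⟨k, hk⟩⟩

variable (hc : Fintype.card ι + 2 = 2 * n) (n3 : 3 ≤ n)
  (H : ∀ u v : Fin n → ℝ, (∀ k, f k u = 0 ∨ f k v = 0) → ∀ i j, u i ^ 2 * v j ^ 2 = u j ^ 2 * v i ^ 2)

include hc n3 H

lemma A {S : Finset ι} (hS : n ≤ S.card) {u : Fin n → ℝ} (hu : ∀ k ∈ S, f k u = 0) (i : Fin n) : u i = 0 := by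
  have := card_compl S
  obtain ⟨v, ⟨j, hj⟩, h2⟩ := ex (fun k : Option (Sᶜ : Finset ι) => k.elim (LinearMap.proj i) fun k => f k)
    (by rw [Fintype.card_option, Fintype.card_coe]; omega)
  have h3 := H u v (fun k => (em (k ∈ S)).imp (hu k) fun h => h2 (some ⟨k, mem_compl.2 h⟩)) i j
  have h4 : v i = 0 := h2 none
  simpa [h4, hj] using h3

lemma B {J : Finset ι} (hJ : J.card + 2 = n) {k l : ι} (hk : k ∉ J) (hl : l ∉ J) (hkl : k ≠ l) {p q u : Fin n → ℝ}
    (p0 : ∃ i, p i ≠ 0) (q0 : ∃ i, q i ≠ 0) (hp : ∀ m ∈ insert k J, f m p = 0) (hq : ∀ m ∈ insert l J, f m q = 0)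
    (hu : ∀ m ∈ J, f m u = 0) : ∃ a b : ℝ, u = a • p + b • q := by
  have cd : n ≤ (insert l (insert k J)).card := by
    rw [card_insert_of_notMem (by simp [hl, hkl.symm]), card_insert_of_notMem hk]; omega
  have h1 : f l p ≠ 0 := fun e => p0.elim fun i hi => hi (A hc n3 H cd (forall_mem_insert _ _ _ |>.2 ⟨e, hp⟩) i)
  have h2 : f k q ≠ 0 := fun e => q0.elim fun i hi => hi (A hc n3 H (insert_comm l k J ▸ cd)
    (forall_mem_insert _ _ _ |>.2 ⟨e, hq⟩) i)
  rw [forall_mem_insert] at hp hq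
  refine ⟨f l u / f l p, f k u / f k q, sub_eq_zero.1 (funext (A hc n3 H cd ?_))⟩
  simp only [forall_mem_insert, map_sub, map_add, map_smul, smul_eq_mul, hp.1, hq.1]
  refine ⟨by field_simp; ring, by field_simp; ring, fun m hm => by simp [hu m hm, hp.2 m hm, hq.2 m hm]⟩

lemma C {J : Finset ι} (hJ : J.card + 2 = n) : ∃ W : Submodule ℝ (Fin n → ℝ), finrank ℝ W ≤ 3 ∧
    ∀ k ∉ J, ∀ ψ : Fin n → ℝ, (∀ m ∉ J, m ≠ k → f m ψ = 0) → ψ * ψ ∈ W := by
  have := card_compl J
  obtain ⟨k, hk, l, hl, hkl⟩ := one_lt_card.1 (by omega : 1 < Jᶜ.card)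
  rw [mem_compl] at hk hl
  have E := fun k => ex' f (insert k J) ((card_insert_le _ _).trans_lt (by omega))
  obtain ⟨p, p0, hp⟩ := E k
  obtain ⟨q, q0, hq⟩ := E l
  refine ⟨Submodule.span ℝ (Set.range ![p * p, p * q, q * q]), (finrank_range_le_card _).trans (by simp),
    fun m _ ψ h => ?_⟩
  obtain ⟨u, ⟨j, hj⟩, hu⟩ := E m
  obtain ⟨a, b, e⟩ := B hc n3 H hJ hk hl hkl p0 q0 hp hq fun m hm => hu m (mem_insert_of_mem hm)
  have h3 := H ψ u fun x => (em (x ∈ insert m J)).symm.imp (fun hx => h x (fun h' => hx (mem_insert_of_mem h'))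
    fun h' => hx (h' ▸ mem_insert_self _ _)) (hu x)
  refine (Submodule.mem_span_range_iff_exists_fun ℝ).2
    ⟨![ψ j ^ 2 / u j ^ 2 * a ^ 2, ψ j ^ 2 / u j ^ 2 * (2 * a * b), ψ j ^ 2 / u j ^ 2 * b ^ 2], funext fun i => ?_⟩
  have h4 := h3 i j
  have h5 : u i = a * p i + b * q i := by rw [e]; rfl
  rw [h5] at h4
  simp [Fin.sum_univ_three]
  field_simp
  linear_combination -h4

theorem main : n ≤ 7 := by
  by_contra h8
  obtain ⟨J, -, hJ⟩ := exists_subset_card_eq (s := (univ : Finset ι)) (n := n - 2) (by rw [card_univ]; omega)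
  have hJ : J.card + 2 = n := by omega
  have cJ := card_compl J
  obtain ⟨m, hm⟩ := card_pos.1 (by omega : 0 < J.card)
  have E := fun k (hk : k ∉ J) => ex' f (Jᶜ.erase k) (by rw [card_erase_of_mem (mem_compl.2 hk)]; omega)
  choose! ψ p0 hψ using E
  have hψ : ∀ k ∉ J, ∀ x ∉ J, x ≠ k → f x (ψ k) = 0 := fun k hk x hx h => hψ k hk x (by simp [hx, h])
  have nz : ∀ k ∉ J, ∀ x, (x ∈ J ∨ x = k) → f x (ψ k) ≠ 0 := fun k hk x hx e => (p0 k hk).elim fun i hi =>
    hi (A hc n3 H (S := insert x (Jᶜ.erase k)) (by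
      rw [card_insert_of_notMem (by rcases hx with h | h <;> simp [h]), card_erase_of_mem (mem_compl.2 hk)]; omega)
      (fun y hy => by
        rcases mem_insert.1 hy with rfl | hy
        · exact e
        · exact hψ k hk y (mem_compl.1 (mem_of_mem_erase hy)) (ne_of_mem_erase hy)) i)
  have sp : ∀ x : Fin n → ℝ, x = ∑ k ∈ Jᶜ, (f k x / f k (ψ k)) • ψ k := fun x => by
    refine sub_eq_zero.1 (funext (A hc n3 H (S := Jᶜ) (by omega) fun y hy => ?_))
    rw [map_sub, map_sum, sum_eq_single_of_mem y hy fun k hk h => by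
      rw [map_smul, hψ k (mem_compl.1 hk) y (mem_compl.1 hy) h.symm, smul_zero], map_smul, smul_eq_mul,
      div_mul_cancel₀ _ (nz y (mem_compl.1 hy) y (.inr rfl)), sub_self]
  obtain ⟨W, w1, w2⟩ := C hc n3 H hJ
  have zs : ∀ l ∈ Jᶜ, 2 ≤ (univ.filter fun i => ψ l i = 0).card := by
    intro l hl
    have hl := mem_compl.1 hl
    obtain ⟨W', w3, w4⟩ := C hc n3 H (J := insert l (J.erase m)) (by
      rw [card_insert_of_notMem fun h => hl (mem_of_mem_erase h), card_erase_of_mem hm]; omega)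
    have pr : ∀ k ∈ Jᶜ, ψ k * ψ l ∈ W ⊔ W' := by
      intro k hk
      have hk := mem_compl.1 hk
      have a1 := Submodule.mem_sup_left (T := W') (w2 k hk _ (hψ k hk))
      have a2 := Submodule.mem_sup_left (T := W') (w2 l hl _ (hψ l hl))
      by_cases e : k = l
      · exact e ▸ a1
      have b1 := nz k hk m (.inl hm)
      have b2 := nz l hl m (.inl hm)
      have a3 := Submodule.mem_sup_right (S := W) (w4 k (by simp [e, hk]) (f m (ψ l) • ψ k - f m (ψ k) • ψ l)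
        fun x hx h => by
          simp only [mem_insert, mem_erase, not_or, not_and] at hx
          by_cases e' : x = m
          · simp [e', mul_comm]
          · simp [hψ k hk x (hx.2 e') h, hψ l hl x (hx.2 e') hx.1])
      have := Submodule.smul_mem _ (2 * f m (ψ l) * f m (ψ k))⁻¹ (sub_mem (add_mem (Submodule.smul_mem _ (f m (ψ l) ^ 2) a1)
        (Submodule.smul_mem _ (f m (ψ k) ^ 2) a2)) a3)
      refine (congrArg (· ∈ W ⊔ W') (funext fun i => ?_)).mp this
      simp only [Pi.smul_apply, Pi.sub_apply, Pi.add_apply, Pi.mul_apply, smul_eq_mul]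
      field_simp
      ring
    have li := (Pi.linearIndependent_single_one (Fin n) ℝ).comp (Subtype.val : {i // ¬ψ l i = 0} → Fin n)
      Subtype.val_injective
    have le : Submodule.span ℝ (Set.range ((fun i : Fin n => (Pi.single i 1 : Fin n → ℝ)) ∘
        (Subtype.val : {i // ¬ψ l i = 0} → Fin n))) ≤ W ⊔ W' := by
      rw [Submodule.span_le]
      rintro _ ⟨⟨i, hi⟩, rfl⟩
      have : (Pi.single i (ψ l i)⁻¹ : Fin n → ℝ) * ψ l ∈ W ⊔ W' := by
        rw [sp (Pi.single i (ψ l i)⁻¹), sum_mul]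
        exact Submodule.sum_mem _ fun k hk => by rw [smul_mul_assoc]; exact Submodule.smul_mem _ _ (pr k hk)
      refine (congrArg (· ∈ W ⊔ W') (funext fun j => ?_)).mp this
      by_cases e : j = i
      · simp [e, hi]
      · simp [e]
    have h1 := Submodule.finrank_mono le
    have h2 := Submodule.finrank_add_le_finrank_add_finrank W W'
    rw [finrank_span_eq_card li, Fintype.card_subtype_compl, Fintype.card_fin, Fintype.card_subtype] at h1
    omega
  have E := fun k => ex' f (insert k J) ((card_insert_le _ _).trans_lt (by omega))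
  choose u u0 hu using E
  have h3 : ∀ k ∉ J, ∀ i j, ψ k i ^ 2 * u k j ^ 2 = ψ k j ^ 2 * u k i ^ 2 := fun k hk => H _ _ fun x =>
    (em (x ∈ insert k J)).symm.imp (fun hx => hψ k hk x (fun h' => hx (mem_insert_of_mem h'))
      fun h' => hx (h' ▸ mem_insert_self _ _)) (hu k x)
  have dj : ((Jᶜ : Finset ι) : Set ι).PairwiseDisjoint fun l => univ.filter fun i => ψ l i = 0 := by
    intro k hk l hl hkl
    have hk := mem_compl.1 hk
    have hl := mem_compl.1 hl
    refine disjoint_left.2 fun i a b => ?_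
    have z : ∀ k ∉ J, ψ k i = 0 → u k i = 0 := fun k hk h => (p0 k hk).elim fun j hj => by
      simpa [h, hj] using h3 k hk i j
    have z2 : ∀ x ∈ Jᶜ, ψ x i = 0 := fun x hx => by
      obtain ⟨c, d, e⟩ := B hc n3 H hJ hk hl hkl (u0 k) (u0 l) (hu k) (hu l) fun m hm => hu x m (mem_insert_of_mem hm)
      have : u x i = 0 := by rw [e]; simp [z k hk (mem_filter.1 a).2, z l hl (mem_filter.1 b).2]
      obtain ⟨j, hj⟩ := u0 x
      simpa [this, hj] using h3 x (mem_compl.1 hx) i j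
    have := congrFun (sp 1) i
    rw [Finset.sum_apply, sum_eq_zero fun x hx => by simp [z2 x hx]] at this
    exact one_ne_zero this
  have h4 := card_le_univ (Jᶜ.biUnion fun l => univ.filter fun i => ψ l i = 0)
  have h5 := card_nsmul_le_sum _ _ _ zs
  rw [card_biUnion dj, Fintype.card_fin] at h4
  rw [smul_eq_mul] at h5
  omega

end Pool.Agent.H.MP_eac85a_an
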